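import Pool.Agent.Helper330.CSF.Bridge
import Pool.Agent.Helper330.CSF.P_holds
import Pool.Agent.Helper330.CSF.P_omegaOne
import Pool.Agent.Helper330.CSF.P_omegaTwo

/-!
It is consistent with ZFC that there is a perfectly normal non-archimedean space with no
point-countable base.

(1) Some notion of forcing preserves `ω₁` and `ω₂` and forces that there is a coherent Souslin
tree of height `ω₂` (`CoherentSouslin`).
(2) `CoherentSouslin` implies that there is a perfectly normal non-archimedean space which has no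
point-countable base.
-/

namespace Pool.Agent.Results.MP_0d2ecd_gt.ConsistentlyNot

open Pool.Agent.Helper330.CSF

theorem result :
    (∃ (P : Type) (_ : Preorder P), Nonempty P ∧ ∀ p : P,
      p ∈ OmegaOnePreserved P ∧ p ∈ OmegaTwoPreserved P ∧ p ∈ CoherentSouslinHolds P) ∧
    (CoherentSouslin →
      ∃ (X : Type) (_ : TopologicalSpace X), T6Space X ∧
        (∃ B : Set (Set X), TopologicalSpace.IsTopologicalBasis B ∧ ∅ ∉ B ∧
          (∀ U ∈ B, ∀ V ∈ B, U ⊆ V ∨ V ⊆ U ∨ Disjoint U V) ∧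
          (∀ U ∈ B, ∀ S ⊆ B, S.Nonempty → (∀ W ∈ S, U ⊆ W) →
            ∃ W ∈ S, ∀ W' ∈ S, W' ⊆ W)) ∧
        ¬ ∃ B : Set (Set X), TopologicalSpace.IsTopologicalBasis B ∧
          ∀ x : X, {U ∈ B | x ∈ U}.Countable) := by
  refine ⟨⟨Cd, inferInstance, ?_, fun p => ⟨omegaOne p, omegaTwo p, holds p⟩⟩, example_of⟩
  obtain ⟨a, -⟩ := bddTwo (ι := PEmpty) (by simp) (fun x => x.elim)
  refine ⟨⟨a, fun _ _ => False, fun a b _ _ => ?_⟩⟩
  simp

end Pool.Agent.Results.MP_0d2ecd_gt.ConsistentlyNot
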