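import Mathlib

set_option autoImplicit false

open Set TopologicalSpace Topology

namespace Pool.Agent.Results.MP_0d2ecd_gt.HeightBelowOmegaTwo

universe u

section

variable {X : Type u} [TopologicalSpace X]

/-- A set is small if a point-countable family of open sets contains a local base at each of
its points. -/
def Small (Z : Set X) : Prop :=
  ∃ B : Set (Set X), (∀ U ∈ B, IsOpen U) ∧ (∀ x : X, {U | U ∈ B ∧ x ∈ U}.Countable) ∧
    ∀ z ∈ Z, ∀ W : Set X, IsOpen W → z ∈ W → ∃ U ∈ B, z ∈ U ∧ U ⊆ W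

theorem Small.mono {Z Z' : Set X} (h : Small Z) (hs : Z' ⊆ Z) : Small Z' := by
  obtain ⟨B, h1, h2, h3⟩ := h
  exact ⟨B, h1, h2, fun z hz => h3 z (hs hz)⟩

theorem small_iUnion {ι : Type*} [Countable ι] (Z : ι → Set X) (h : ∀ i, Small (Z i)) :
    Small (⋃ i, Z i) := by
  choose B h1 h2 h3 using h
  refine ⟨⋃ i, B i, ?_, ?_, ?_⟩
  · intro U hU
    obtain ⟨i, hi⟩ := mem_iUnion.1 hU
    exact h1 i U hi
  · intro x
    have : {U | U ∈ ⋃ i, B i ∧ x ∈ U} ⊆ ⋃ i, {U | U ∈ B i ∧ x ∈ U} := by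
      rintro U ⟨hU, hx⟩
      obtain ⟨i, hi⟩ := mem_iUnion.1 hU
      exact mem_iUnion.2 ⟨i, hi, hx⟩
    exact (countable_iUnion fun i => h2 i x).mono this
  · intro z hz W hW hzW
    obtain ⟨i, hi⟩ := mem_iUnion.1 hz
    obtain ⟨U, hU, hzU, hUW⟩ := h3 i z hi W hW hzW
    exact ⟨U, mem_iUnion.2 ⟨i, hU⟩, hzU, hUW⟩

theorem Small.union {Z Z' : Set X} (h : Small Z) (h' : Small Z') : Small (Z ∪ Z') := by
  have : Small (⋃ b : Bool, cond b Z Z') := small_iUnion _ (by intro b; cases b <;> assumption)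
  refine this.mono ?_
  rintro x (hx | hx)
  · exact mem_iUnion.2 ⟨true, hx⟩
  · exact mem_iUnion.2 ⟨false, hx⟩

end

section

variable {X : Type u} [TopologicalSpace X] [T6Space X]

/-- a base which is a tree, with a rank function -/
structure TB (T : Set (Set X)) (ρ : Set X → Ordinal.{0}) : Prop where
  basis : IsTopologicalBasis T
  comp : ∀ U ∈ T, ∀ V ∈ T, U ⊆ V ∨ V ⊆ U ∨ Disjoint U V
  rank : ∀ U ∈ T, ∀ V ∈ T, U ⊂ V → ρ V < ρ U

/-- the maximal members of `T` with property `P` -/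
def Mx (T : Set (Set X)) (P : Set X → Prop) : Set (Set X) :=
  {s | s ∈ T ∧ P s ∧ ∀ s' ∈ T, P s' → s ⊆ s' → s' = s}

variable {T : Set (Set X)} {ρ : Set X → Ordinal.{0}}

theorem TB.comp' (h : TB T ρ) {s t : Set X} (hs : s ∈ T) (ht : t ∈ T) {x : X} (hxs : x ∈ s)
    (hxt : x ∈ t) : s ⊆ t ∨ t ⊆ s := by
  rcases h.comp s hs t ht with h1 | h1 | h1
  · exact Or.inl h1
  · exact Or.inr h1
  · exact absurd hxt (disjoint_left.1 h1 hxs)

theorem TB.rank_le (h : TB T ρ) {s t : Set X} (hs : s ∈ T) (ht : t ∈ T) (hst : s ⊆ t) :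
    ρ t ≤ ρ s := by
  by_cases he : s = t
  · rw [he]
  · exact (h.rank s hs t ht ⟨hst, fun h' => he (Subset.antisymm hst h')⟩).le

theorem Mx_eq (h : TB T ρ) {P : Set X → Prop} {s t : Set X} (hs : s ∈ Mx T P) (ht : t ∈ Mx T P)
    {x : X} (hxs : x ∈ s) (hxt : x ∈ t) : s = t := by
  rcases h.comp' hs.1 ht.1 hxs hxt with h1 | h1
  · exact (hs.2.2 t ht.1 ht.2.1 h1).symm
  · exact ht.2.2 s hs.1 hs.2.1 h1

theorem Mx_countable (h : TB T ρ) (P : Set X → Prop) (x : X) :
    {U | U ∈ Mx T P ∧ x ∈ U}.Countable := by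
  apply Set.Subsingleton.countable
  rintro s ⟨hs, hxs⟩ t ⟨ht, hxt⟩
  exact Mx_eq h hs ht hxs hxt

theorem Mx_exists (h : TB T ρ) {P : Set X → Prop} {s : Set X} (hs : s ∈ T) (hP : P s)
    {x : X} (hx : x ∈ s) : ∃ m ∈ Mx T P, s ⊆ m := by
  obtain ⟨m, ⟨hm, hPm, hsm⟩, hmin⟩ := WellFounded.has_min
    (InvImage.wf ρ (wellFounded_lt : WellFounded ((· < ·) : Ordinal.{0} → Ordinal.{0} → Prop)))
    {t | t ∈ T ∧ P t ∧ s ⊆ t} ⟨s, hs, hP, Subset.rfl⟩
  refine ⟨m, ⟨hm, hPm, ?_⟩, hsm⟩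
  intro t ht hPt hmt
  by_contra hne
  exact hmin t ⟨ht, hPt, hsm.trans hmt⟩
    (h.rank m hm t ht ⟨hmt, fun h' => hne (Subset.antisymm h' hmt)⟩)

/-- closed sets without interior are small -/
theorem small_of_closed (h : TB T ρ) {Z : Set X} (hZ : IsClosed Z) (hi : interior Z = ∅) :
    Small Z := by
  obtain ⟨O, hO, hZO⟩ := isGδ_iff_eq_iInter_nat.1 hZ.isGδ
  refine ⟨⋃ n, Mx T (fun s => s ⊆ O n), ?_, ?_, ?_⟩
  · intro U hU
    obtain ⟨n, hn⟩ := mem_iUnion.1 hU
    exact h.basis.isOpen hn.1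
  · intro x
    have : {U | U ∈ ⋃ n, Mx T (fun s => s ⊆ O n) ∧ x ∈ U} ⊆
        ⋃ n, {U | U ∈ Mx T (fun s => s ⊆ O n) ∧ x ∈ U} := by
      rintro U ⟨hU, hx⟩
      obtain ⟨i, hi⟩ := mem_iUnion.1 hU
      exact mem_iUnion.2 ⟨i, hi, hx⟩
    exact (countable_iUnion fun n => Mx_countable h _ x).mono this
  · intro z hz W hW hzW
    obtain ⟨s, hs, hzs, hsW⟩ := h.basis.exists_subset_of_mem_open hzW hW
    by_contra hcon
    push Not at hcon
    have hsub : ∀ n, s ⊆ O n := by
      intro n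
      have hzn : z ∈ O n := by
        rw [hZO] at hz
        exact mem_iInter.1 hz n
      obtain ⟨t, ht, hzt, htO⟩ := h.basis.exists_subset_of_mem_open hzn (hO n)
      obtain ⟨m, hm, htm⟩ := Mx_exists h (P := fun s => s ⊆ O n) ht htO hzt
      have h1 := hcon m (mem_iUnion.2 ⟨n, hm⟩) (htm hzt)
      rcases h.comp' hs hm.1 hzs (htm hzt) with h2 | h2
      · exact h2.trans hm.2.1
      · exact absurd (h2.trans hsW) h1
    have h3 : s ⊆ Z := by
      rw [hZO]
      exact subset_iInter hsub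
    have h4 : z ∈ interior Z := mem_interior.2 ⟨s, h3, h.basis.isOpen hs, hzs⟩
    rw [hi] at h4
    exact h4

/-- countable local bases inside `T` -/
theorem fc (h : TB T ρ) (p : X) : ∃ s : ℕ → Set X, (∀ n, s n ∈ T ∧ p ∈ s n) ∧
    ∀ t ∈ T, p ∈ t → ∃ n, s n ⊆ t := by
  by_cases hp : IsOpen ({p} : Set X)
  · obtain ⟨s, hs, hps, hsp⟩ := h.basis.exists_subset_of_mem_open (mem_singleton p) hp
    refine ⟨fun _ => s, fun _ => ⟨hs, hps⟩, fun t _ hpt => ⟨0, ?_⟩⟩
    exact hsp.trans (singleton_subset_iff.2 hpt)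
  · obtain ⟨O, hO, hpO⟩ := isGδ_iff_eq_iInter_nat.1 (isClosed_singleton (x := p)).isGδ
    have hpn : ∀ n, p ∈ O n := by
      intro n
      have : p ∈ ⋂ n, O n := by rw [← hpO]; exact mem_singleton p
      exact mem_iInter.1 this n
    choose s hs hps hsO using fun n => h.basis.exists_subset_of_mem_open (hpn n) (hO n)
    refine ⟨s, fun n => ⟨hs n, hps n⟩, fun t ht hpt => ?_⟩
    by_contra hcon
    push Not at hcon
    apply hp
    have htp : t ⊆ {p} := by
      rw [hpO]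
      refine subset_iInter fun n => ?_
      rcases h.comp' ht (hs n) hpt (hps n) with h1 | h1
      · exact h1.trans (hsO n)
      · exact absurd h1 (hcon n)
    have : t = {p} := Subset.antisymm htp (singleton_subset_iff.2 hpt)
    rw [← this]
    exact h.basis.isOpen ht

/-- points all of whose neighbourhoods in `T` have rank below `i` -/
def K (T : Set (Set X)) (ρ : Set X → Ordinal.{0}) (i : Ordinal.{0}) : Set X :=
  {p | ∀ t ∈ T, p ∈ t → ρ t < i}

theorem K_mono {i j : Ordinal.{0}} (hij : i ≤ j) : K T ρ i ⊆ K T ρ j :=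
  fun _ hp t ht hpt => lt_of_lt_of_le (hp t ht hpt) hij

theorem K_closed (h : TB T ρ) (i : Ordinal.{0}) : IsClosed (K T ρ i) := by
  rw [← isOpen_compl_iff, isOpen_iff_mem_nhds]
  intro p hp
  have : ∃ t ∈ T, p ∈ t ∧ ¬ ρ t < i := by
    by_contra hcon
    push Not at hcon
    exact hp fun t ht hpt => hcon t ht hpt
  obtain ⟨t, ht, hpt, hti⟩ := this
  refine Filter.mem_of_superset ((h.basis.isOpen ht).mem_nhds hpt) ?_
  intro q hq hqK
  exact hti (hqK t ht hq)

theorem Mx_of_not_K (h : TB T ρ) {i : Ordinal.{0}} {p : X} (hp : p ∉ K T ρ i) :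
    ∃ m ∈ Mx T (fun s => i ≤ ρ s), p ∈ m := by
  have : ∃ t ∈ T, p ∈ t ∧ i ≤ ρ t := by
    by_contra hcon
    push Not at hcon
    exact hp fun t ht hpt => hcon t ht hpt
  obtain ⟨t, ht, hpt, hti⟩ := this
  obtain ⟨m, hm, htm⟩ := Mx_exists h (P := fun s => i ≤ ρ s) ht hti hpt
  exact ⟨m, hm, htm hpt⟩

theorem not_K_of_Mx {i : Ordinal.{0}} {p : X} {m : Set X}
    (hm : m ∈ Mx T (fun s => i ≤ ρ s)) (hp : p ∈ m) : p ∉ K T ρ i :=
  fun hK => absurd (hK m hm.1 hp) (not_lt.2 hm.2.1)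

/-- the case of countable cofinality -/
theorem small_a (h : TB T ρ) {i : Ordinal.{0}} (S : Set Ordinal.{0}) (hS : S.Countable)
    (hSi : ∀ j < i, ∃ s ∈ S, j ≤ s) (ih : ∀ s ∈ S, Small (K T ρ s)) : Small (K T ρ i) := by
  have := hS.to_subtype
  have h1 : Small (⋃ s : S, K T ρ s) := small_iUnion _ fun s => ih s s.2
  have h2 : Small {p | p ∈ K T ρ i ∧ ∀ s ∈ S, p ∉ K T ρ s} := by
    refine ⟨⋃ s : S, Mx T (fun t => (s : Ordinal.{0}) ≤ ρ t), ?_, ?_, ?_⟩
    · intro U hU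
      obtain ⟨n, hn⟩ := mem_iUnion.1 hU
      exact h.basis.isOpen hn.1
    · intro x
      have : {U | U ∈ ⋃ s : S, Mx T (fun t => (s : Ordinal.{0}) ≤ ρ t) ∧ x ∈ U} ⊆
          ⋃ s : S, {U | U ∈ Mx T (fun t => (s : Ordinal.{0}) ≤ ρ t) ∧ x ∈ U} := by
        rintro U ⟨hU, hx⟩
        obtain ⟨i, hi⟩ := mem_iUnion.1 hU
        exact mem_iUnion.2 ⟨i, hi, hx⟩
      exact (countable_iUnion fun n => Mx_countable h _ x).mono this
    · rintro p ⟨hpi, hpS⟩ W hW hpW
      obtain ⟨t, ht, hpt, htW⟩ := h.basis.exists_subset_of_mem_open hpW hW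
      obtain ⟨s, hs, hts⟩ := hSi _ (hpi t ht hpt)
      obtain ⟨m, hm, hpm⟩ := Mx_of_not_K h (hpS s hs)
      refine ⟨m, mem_iUnion.2 ⟨⟨s, hs⟩, hm⟩, hpm, ?_⟩
      rcases h.comp' hm.1 ht hpm hpt with h3 | h3
      · exact h3.trans htW
      · by_cases he : t = m
        · rw [← he]; exact htW
        · exfalso
          have h4 := h.rank t ht m hm.1 ⟨h3, fun h' => he (Subset.antisymm h3 h')⟩
          exact absurd (hm.2.1.trans_lt h4) (not_lt.2 hts)
  refine (h1.union h2).mono ?_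
  intro p hp
  by_cases hq : ∃ s ∈ S, p ∈ K T ρ s
  · obtain ⟨s, hs, hps⟩ := hq
    exact Or.inl (mem_iUnion.2 ⟨⟨s, hs⟩, hps⟩)
  · push Not at hq
    exact Or.inr ⟨hp, hq⟩

/-- the index set: a well-order of type `ω₁` -/
abbrev W1 : Type := (Cardinal.aleph 1).ord.ToType

theorem countable_Iio (a : W1) : (Set.Iio a).Countable := by
  have h := Cardinal.mk_Iio_ord_toType a
  rw [← Cardinal.le_aleph0_iff_set_countable]
  exact Order.lt_succ_iff.1 (h.trans_eq Cardinal.succ_aleph0.symm)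

theorem countable_Iic (a : W1) : (Set.Iic a).Countable := by
  have : Set.Iic a = insert a (Set.Iio a) := by
    ext x
    simp only [mem_Iic, mem_insert_iff, mem_Iio]
    exact le_iff_eq_or_lt
  rw [this]
  exact (countable_Iio a).insert a

/-- the case of uncountable cofinality -/
theorem small_b (h : TB T ρ) {i : Ordinal.{0}} (c : W1 → Ordinal.{0}) (hc : Monotone c)
    (hcov : ∀ p ∈ K T ρ i, ∃ a, p ∈ K T ρ (c a)) (ih : ∀ a, Small (K T ρ (c a))) :
    Small (interior (K T ρ i)) := by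
  choose J hJ1 hJ2 hJ3 using ih
  let A : W1 → Set (Set X) := fun a => Mx T (fun s => c a ≤ ρ s)
  -- points surviving below `a`
  let Dom : W1 → Set X := fun a => {p | ∀ b < a, p ∉ K T ρ (c b)}
  let cell : W1 → X → Set X := fun a p => {x | ∀ b < a, ∀ s ∈ A b, p ∈ s → x ∈ s}
  let E : W1 → Set (Set X) := fun a =>
    {V | ∃ U ∈ J a, ∃ p ∈ Dom a, V = U ∩ interior (cell a p)}
  let V0 : Set X := interior (K T ρ i)
  have hV0 : IsOpen V0 := isOpen_interior
  -- cells
  have hcell : ∀ a p x, p ∈ Dom a → x ∈ cell a p → x ∈ Dom a ∧ cell a p = cell a x := by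
    intro a p x hp hx
    have h1 : ∀ b < a, ∃ m ∈ A b, p ∈ m ∧ x ∈ m := by
      intro b hb
      obtain ⟨m, hm, hpm⟩ := Mx_of_not_K h (hp b hb)
      exact ⟨m, hm, hpm, hx b hb m hm hpm⟩
    refine ⟨?_, ?_⟩
    · intro b hb
      obtain ⟨m, hm, hpm, hxm⟩ := h1 b hb
      exact not_K_of_Mx hm hxm
    · ext y
      constructor
      · intro hy b hb s hs hxs
        obtain ⟨m, hm, hpm, hxm⟩ := h1 b hb
        have : s = m := Mx_eq h hs hm hxs hxm
        rw [this]
        exact hy b hb m hm hpm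
      · intro hy b hb s hs hps
        obtain ⟨m, hm, hpm, hxm⟩ := h1 b hb
        have : s = m := Mx_eq h hs hm hps hpm
        rw [this]
        exact hy b hb m hm hxm
  refine ⟨{U | ∃ a, ∃ V, (V ∈ A a ∨ V ∈ E a) ∧ U = V ∩ V0}, ?_, ?_, ?_⟩
  · rintro U ⟨a, V, hV | hV, rfl⟩
    · exact (h.basis.isOpen hV.1).inter hV0
    · obtain ⟨U, hU, p, hp, rfl⟩ := hV
      exact ((hJ1 a U hU).inter isOpen_interior).inter hV0
  · intro x
    by_cases hx : x ∈ V0
    · obtain ⟨a0, ha0⟩ := hcov x (interior_subset hx)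
      have hsub : {U | U ∈ {U | ∃ a, ∃ V, (V ∈ A a ∨ V ∈ E a) ∧ U = V ∩ V0} ∧ x ∈ U} ⊆
          ⋃ a ∈ Set.Iic a0, ((fun V => V ∩ V0) '' {V | V ∈ A a ∧ x ∈ V} ∪
            (fun V => V ∩ interior (cell a x) ∩ V0) '' {V | V ∈ J a ∧ x ∈ V}) := by
        rintro _ ⟨⟨a, V, hV | hV, rfl⟩, hxU⟩
        · have ha : a ≤ a0 := by
            by_contra hcon
            exact not_K_of_Mx hV hxU.1 (K_mono (hc (not_le.1 hcon).le) ha0)
          exact mem_biUnion (show a ∈ Set.Iic a0 from ha) (Or.inl ⟨V, ⟨hV, hxU.1⟩, rfl⟩)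
        · obtain ⟨U, hU, p, hp, rfl⟩ := hV
          obtain ⟨hxD, hcx⟩ := hcell a p x hp (interior_subset hxU.1.2)
          have ha : a ≤ a0 := by
            by_contra hcon
            exact hxD a0 (not_le.1 hcon) ha0
          refine mem_biUnion (show a ∈ Set.Iic a0 from ha) (Or.inr ⟨U, ⟨hU, hxU.1.1⟩, ?_⟩)
          simp only
          rw [hcx]
      refine Set.Countable.mono hsub ?_
      refine (countable_Iic a0).biUnion fun a _ => ?_
      exact ((Mx_countable h _ x).image _).union ((hJ2 a x).image _)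
    · have : {U | U ∈ {U | ∃ a, ∃ V, (V ∈ A a ∨ V ∈ E a) ∧ U = V ∩ V0} ∧ x ∈ U} = ∅ := by
        rw [eq_empty_iff_forall_notMem]
        rintro _ ⟨⟨a, V, _, rfl⟩, hxU⟩
        exact hx hxU.2
      rw [this]
      exact countable_empty
  · intro p hp W hW hpW
    -- the least index
    have hne : ({a | p ∈ K T ρ (c a)} : Set W1).Nonempty := hcov p (interior_subset hp)
    obtain ⟨a, ha, hmin⟩ := WellFounded.has_min (wellFounded_lt : WellFounded
      ((· < ·) : W1 → W1 → Prop)) _ hne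
    have hD : p ∈ Dom a := fun b hb hK => hmin b hK hb
    by_cases hex : ∃ b < a, ∃ m ∈ A b, p ∈ m ∧ m ⊆ W
    · obtain ⟨b, _, m, hm, hpm, hmW⟩ := hex
      exact ⟨m ∩ V0, ⟨b, m, Or.inl hm, rfl⟩, ⟨hpm, hp⟩, inter_subset_left.trans hmW⟩
    · push Not at hex
      obtain ⟨s, hs, hps, hsW⟩ := h.basis.exists_subset_of_mem_open hpW hW
      have hsc : s ⊆ cell a p := by
        intro x hx b hb m hm hpm
        rcases h.comp' hs hm.1 hps hpm with h1 | h1
        · exact h1 hx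
        · exact absurd (h1.trans hsW) (hex b hb m hm hpm)
      have hpc : p ∈ interior (cell a p) := mem_interior.2 ⟨s, hsc, h.basis.isOpen hs, hps⟩
      obtain ⟨U, hU, hpU, hUW⟩ := hJ3 a p ha W hW hpW
      exact ⟨U ∩ interior (cell a p) ∩ V0, ⟨a, _, Or.inr ⟨U, hU, p, hD, rfl⟩, rfl⟩,
        ⟨⟨hpU, hpc⟩, hp⟩, fun x hx => hUW hx.1.1⟩

theorem small_K (h : TB T ρ) (i : Ordinal.{0}) (hi : i.card ≤ Cardinal.aleph 1) :
    Small (K T ρ i) := by
  induction i using WellFoundedLT.induction with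
  | ind i ih =>
    have ih' : ∀ j < i, Small (K T ρ j) := fun j hj =>
      ih j hj ((Ordinal.card_le_card hj.le).trans hi)
    by_cases hcase : ∃ S : Set Ordinal.{0}, S.Countable ∧ (∀ s ∈ S, s < i) ∧
        ∀ j < i, ∃ s ∈ S, j ≤ s
    · obtain ⟨S, hS, hSi, hS2⟩ := hcase
      exact small_a h S hS hS2 (fun s hs => ih' s (hSi s hs))
    · have hb : ∀ S : Set Ordinal.{0}, S.Countable → (∀ s ∈ S, s < i) →
          ∃ j < i, ∀ s ∈ S, s < j := by
        intro S hS hSi
        by_contra hcon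
        push Not at hcon
        exact hcase ⟨S, hS, hSi, fun j hj => hcon j hj⟩
      -- the boundary and the interior
      have hbd : Small (K T ρ i \ interior (K T ρ i)) := by
        apply small_of_closed h ((K_closed h i).sdiff isOpen_interior)
        rw [eq_empty_iff_forall_notMem]
        intro x hx
        have h1 : x ∈ interior (K T ρ i) := interior_mono diff_subset hx
        exact (interior_subset hx).2 h1
      -- an enumeration
      have hcard : Cardinal.mk i.ToType ≤ Cardinal.mk W1 := by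
        rw [Cardinal.mk_toType]
        exact hi.trans (by rw [Cardinal.mk_ord_toType])
      obtain ⟨e⟩ := hcard
      let v : i.ToType → Ordinal.{0} := fun x => (Ordinal.ToType.mk.symm x).1
      have hv : ∀ x, v x < i := fun x => (Ordinal.ToType.mk.symm x).2
      let c : W1 → Ordinal.{0} := fun a => sInf {j | ∀ x : i.ToType, e x ≤ a → v x ≤ j}
      have hc : Monotone c := by
        intro a b hab
        apply csInf_le_csInf (OrderBot.bddBelow _)
        · exact ⟨i, fun x _ => (hv x).le⟩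
        · intro j hj x hx
          exact hj x (hx.trans hab)
      have hci : ∀ a, c a < i := by
        intro a
        obtain ⟨j, hj, hj'⟩ := hb (v '' {x | e x ≤ a})
          (by
            apply Set.Countable.image
            exact (countable_Iic a).preimage e.injective)
          (by
            rintro _ ⟨x, _, rfl⟩
            exact hv x)
        refine lt_of_le_of_lt (csInf_le (OrderBot.bddBelow _) ?_) hj
        intro x hx
        exact (hj' _ ⟨x, hx, rfl⟩).le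
      have hcof : ∀ j < i, ∃ a, j ≤ c a := by
        intro j hj
        obtain ⟨x, hx⟩ : ∃ x, v x = j := ⟨Ordinal.ToType.mk ⟨j, hj⟩, by simp [v]⟩
        refine ⟨e x, ?_⟩
        have hne : {j' | ∀ y : i.ToType, e y ≤ e x → v y ≤ j'}.Nonempty :=
          ⟨i, fun y _ => (hv y).le⟩
        apply le_csInf hne
        intro k hk
        rw [← hx]
        exact hk x le_rfl
      have hint : Small (interior (K T ρ i)) := by
        apply small_b h c hc
        · intro p hp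
          obtain ⟨s, hs, hs'⟩ := fc h p
          obtain ⟨j, hj, hj'⟩ := hb (range fun n => ρ (s n)) (countable_range _)
            (by
              rintro _ ⟨n, rfl⟩
              exact hp _ (hs n).1 (hs n).2)
          obtain ⟨a, ha⟩ := hcof j hj
          refine ⟨a, fun t ht hpt => ?_⟩
          obtain ⟨n, hn⟩ := hs' t ht hpt
          exact lt_of_le_of_lt (h.rank_le (hs n).1 ht hn) ((hj' _ ⟨n, rfl⟩).trans_le ha)
        · intro a
          exact ih' _ (hci a)
      refine (hint.union hbd).mono ?_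
      intro x hx
      by_cases hxi : x ∈ interior (K T ρ i)
      · exact Or.inl hxi
      · exact Or.inr ⟨hx, hxi⟩

end

/-- A perfectly normal non-archimedean space with a tree base of height less than `ω₂` has a
point-countable base. -/
theorem result (X : Type u) [TopologicalSpace X] [T6Space X]
    (T : Set (Set X)) (hT : IsTopologicalBasis T)
    (hcomp : ∀ U ∈ T, ∀ V ∈ T, U ⊆ V ∨ V ⊆ U ∨ Disjoint U V)
    (ρ : Set X → Ordinal.{0}) (hρ : ∀ U ∈ T, ∀ V ∈ T, U ⊂ V → ρ V < ρ U)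
    (δ : Ordinal.{0}) (hδ : δ < Ordinal.omega 2) (hρδ : ∀ U ∈ T, ρ U < δ) :
    ∃ B : Set (Set X), IsTopologicalBasis B ∧ ∀ x : X, {U ∈ B | x ∈ U}.Countable := by
  have h : TB T ρ := ⟨hT, hcomp, hρ⟩
  have hcard : δ.card ≤ Cardinal.aleph 1 := by
    have h1 : δ.card < Cardinal.aleph 2 := by
      rw [← Cardinal.lt_ord, Cardinal.ord_aleph]
      exact hδ
    have h2 : Cardinal.aleph 2 = Order.succ (Cardinal.aleph 1) := by
      rw [Cardinal.succ_aleph, one_add_one_eq_two]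
    rw [h2, Order.lt_succ_iff] at h1
    exact h1
  obtain ⟨B, hB1, hB2, hB3⟩ := small_K h δ hcard
  refine ⟨B, ?_, hB2⟩
  apply isTopologicalBasis_of_isOpen_of_nhds hB1
  intro x W hxW hW
  have hx : x ∈ K T ρ δ := fun t ht _ => hρδ t ht
  obtain ⟨U, hU, hxU, hUW⟩ := hB3 x hx W hW hxW
  exact ⟨U, hU, hxU, hUW⟩

end Pool.Agent.Results.MP_0d2ecd_gt.HeightBelowOmegaTwo
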